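import Pool.Agent.Lib_helper68.MC.Defs

/-! Project MC (MP_b08f5f_an, microcanonical), block DV (Donsker-Varadhan). -/

set_option autoImplicit false

namespace Pool.Agent.Lib_helper68.MC

open MeasureTheory Filter Topology Set
open scoped ComplexConjugate ENNReal NNReal

noncomputable section

theorem DV_exp {M a b : ℝ} (ha : a ≤ M) (hb : b ≤ M) :
    |Real.exp a - Real.exp b| ≤ Real.exp M * |a - b| := by
  wlog hab : b ≤ a generalizing a b
  · rw [abs_sub_comm, abs_sub_comm a b]
    exact this hb ha (le_of_not_ge hab)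
  rw [abs_of_nonneg (sub_nonneg.2 (Real.exp_le_exp.2 hab)), abs_of_nonneg (sub_nonneg.2 hab)]
  have h1 : Real.exp b = Real.exp a * Real.exp (b - a) := by rw [← Real.exp_add]; ring_nf
  have h2 := Real.add_one_le_exp (b - a)
  have h3 : Real.exp a ≤ Real.exp M := Real.exp_le_exp.2 ha
  have h4 := Real.exp_pos a
  rw [h1]
  nlinarith

/-- approximation of bounded measurable functions -/
theorem DV_approx (ν : Measure ℂ) [IsFiniteMeasure ν] (g : ℂ → ℝ) (hg : Measurable g) (M : ℝ)
    (hM : ∀ x, |g x| ≤ M) {ε : ℝ} (hε : 0 < ε) : ∃ f : ℂ → ℝ, Continuous f ∧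
      HasCompactSupport f ∧ (∀ x, |f x| ≤ M) ∧ ∫ x, |g x - f x| ∂ν ≤ ε := by
  have hM0 : 0 ≤ M := le_trans (abs_nonneg _) (hM 0)
  have hint : Integrable g ν := Integrable.of_bound hg.aestronglyMeasurable M
    (Eventually.of_forall fun x => by simpa using hM x)
  obtain ⟨f, hfs, hfi, hfc, hfint⟩ := hint.exists_hasCompactSupport_integral_sub_le hε
  refine ⟨fun x => max (-M) (min (f x) M), by fun_prop, ?_, ?_, ?_⟩
  · exact hfs.comp_left (g := fun t => max (-M) (min t M)) (by
      simp [hM0])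
  · intro x
    rw [abs_le]
    constructor
    · exact le_max_left _ _
    · exact max_le (by linarith) (min_le_right _ _)
  · refine le_trans (integral_mono_of_nonneg (Eventually.of_forall fun x => abs_nonneg _)
      ((hint.sub hfint).norm) (Eventually.of_forall fun x => ?_)) hfi
    have h1 := abs_le.1 (hM x)
    have h2 : g x = max (-M) (min (g x) M) := by
      rw [min_eq_left h1.2, max_eq_right h1.1]
    simp only [Pi.sub_apply, Real.norm_eq_abs]
    calc |g x - max (-M) (min (f x) M)| = |max (-M) (min (g x) M) - max (-M) (min (f x) M)| := by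
          rw [← h2]
      _ ≤ |min (g x) M - min (f x) M| := by
          have := abs_max_sub_max_le_abs (min (g x) M) (min (f x) M) (-M)
          simpa [max_comm] using this
      _ ≤ |g x - f x| := by
          have := abs_min_sub_min_le_max (g x) M (f x) M
          simpa using this

/-- from compactly supported to bounded measurable functions -/
theorem DV_bdd (μ γ : Measure ℂ) [IsProbabilityMeasure μ] [IsFiniteMeasure γ] (hγ : γ ≠ 0) (C : ℝ)
    (hC : ∀ f : ℂ → ℝ, Continuous f → HasCompactSupport f →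
      ∫ x, f x ∂μ - Real.log (∫ x, Real.exp (f x) ∂γ) ≤ C)
    (g : ℂ → ℝ) (hg : Measurable g) (M : ℝ) (hM : ∀ x, |g x| ≤ M) :
    ∫ x, g x ∂μ - Real.log (∫ x, Real.exp (g x) ∂γ) ≤ C := by
  have hex : ∀ n : ℕ, ∃ f : ℂ → ℝ, Continuous f ∧ HasCompactSupport f ∧ (∀ x, |f x| ≤ M) ∧
      ∫ x, |g x - f x| ∂(μ + γ) ≤ 1 / ((n : ℝ) + 1) := fun n =>
    DV_approx (μ + γ) g hg M hM (by positivity)
  choose f hfc hfs hfM hfi using hex
  have hbi : ∀ (ν : Measure ℂ) [IsFiniteMeasure ν] (k : ℂ → ℝ), Measurable k →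
      (∀ x, |k x| ≤ M) → Integrable k ν := fun ν _ k hk hkM =>
    Integrable.of_bound hk.aestronglyMeasurable M
      (Eventually.of_forall fun x => by simpa using hkM x)
  have hei : ∀ (k : ℂ → ℝ), Measurable k → (∀ x, |k x| ≤ M) →
      Integrable (fun x => Real.exp (k x)) γ := fun k hk hkM =>
    Integrable.of_bound (Real.measurable_exp.comp hk).aestronglyMeasurable (Real.exp M)
      (Eventually.of_forall fun x => by
        rw [Real.norm_eq_abs, abs_of_pos (Real.exp_pos _)]
        exact Real.exp_le_exp.2 (le_trans (le_abs_self _) (hkM x)))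
  have hdi : ∀ (n : ℕ) (ν : Measure ℂ) [IsFiniteMeasure ν],
      Integrable (fun x => |g x - f n x|) ν := fun n ν _ =>
    ((hbi ν g hg hM).sub (hbi ν (f n) (hfc n).measurable (hfM n))).abs
  have hsum : ∀ n : ℕ, ∫ x, |g x - f n x| ∂μ + ∫ x, |g x - f n x| ∂γ ≤ 1 / ((n : ℝ) + 1) := by
    intro n
    rw [← integral_add_measure (hdi n μ) (hdi n γ)]
    exact hfi n
  have hlim : Tendsto (fun n : ℕ => 1 / ((n : ℝ) + 1)) atTop (𝓝 0) :=
    tendsto_one_div_add_atTop_nhds_zero_nat
  have h1 : Tendsto (fun n => ∫ x, f n x ∂μ) atTop (𝓝 (∫ x, g x ∂μ)) := by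
    rw [tendsto_iff_norm_sub_tendsto_zero]
    refine squeeze_zero (fun _ => norm_nonneg _) (fun n => ?_) hlim
    have h0 : 0 ≤ ∫ x, |g x - f n x| ∂γ := integral_nonneg fun x => abs_nonneg _
    rw [← integral_sub (hbi μ _ (hfc n).measurable (hfM n)) (hbi μ g hg hM)]
    calc ‖∫ x, (f n x - g x) ∂μ‖ ≤ ∫ x, ‖f n x - g x‖ ∂μ := norm_integral_le_integral_norm _
      _ = ∫ x, |g x - f n x| ∂μ := by
          refine integral_congr_ae (Eventually.of_forall fun x => ?_)
          simp only [Real.norm_eq_abs]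
          exact abs_sub_comm _ _
      _ ≤ 1 / ((n : ℝ) + 1) := by linarith [hsum n]
  have h2 : Tendsto (fun n => ∫ x, Real.exp (f n x) ∂γ) atTop (𝓝 (∫ x, Real.exp (g x) ∂γ)) := by
    rw [tendsto_iff_norm_sub_tendsto_zero]
    have hlim' : Tendsto (fun n : ℕ => Real.exp M * (1 / ((n : ℝ) + 1))) atTop (𝓝 0) := by
      simpa using hlim.const_mul (Real.exp M)
    refine squeeze_zero (fun _ => norm_nonneg _) (fun n => ?_) hlim'
    have h0 : 0 ≤ ∫ x, |g x - f n x| ∂μ := integral_nonneg fun x => abs_nonneg _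
    rw [← integral_sub (hei _ (hfc n).measurable (hfM n)) (hei g hg hM)]
    calc ‖∫ x, (Real.exp (f n x) - Real.exp (g x)) ∂γ‖
        ≤ ∫ x, ‖Real.exp (f n x) - Real.exp (g x)‖ ∂γ := norm_integral_le_integral_norm _
      _ ≤ ∫ x, Real.exp M * |g x - f n x| ∂γ := by
          refine integral_mono_of_nonneg (Eventually.of_forall fun x => norm_nonneg _)
            ((hdi n γ).const_mul _) (Eventually.of_forall fun x => ?_)
          simp only [Real.norm_eq_abs]
          rw [abs_sub_comm (g x)]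
          exact DV_exp (le_trans (le_abs_self _) (hfM n x)) (le_trans (le_abs_self _) (hM x))
      _ = Real.exp M * ∫ x, |g x - f n x| ∂γ := integral_const_mul _ _
      _ ≤ Real.exp M * (1 / ((n : ℝ) + 1)) :=
          mul_le_mul_of_nonneg_left (by linarith [hsum n]) (Real.exp_pos _).le
  have hpos : 0 < ∫ x, Real.exp (g x) ∂γ := by
    have : NeZero γ := ⟨hγ⟩
    exact integral_exp_pos (hei g hg hM)
  have h3 := h1.sub ((Real.continuousAt_log hpos.ne').tendsto.comp h2)
  exact le_of_tendsto h3 (Eventually.of_forall fun n => hC (f n) (hfc n) (hfs n))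

/-- absolute continuity -/
theorem DV_ac (μ γ : Measure ℂ) [IsProbabilityMeasure μ] [IsFiniteMeasure γ] (C : ℝ)
    (hC : ∀ g : ℂ → ℝ, Measurable g → (∃ M, ∀ x, |g x| ≤ M) →
      ∫ x, g x ∂μ - Real.log (∫ x, Real.exp (g x) ∂γ) ≤ C) : μ ≪ γ := by
  refine Measure.AbsolutelyContinuous.mk fun A hA h0 => ?_
  by_contra hne
  have hpos : 0 < μ.real A := ENNReal.toReal_pos hne (measure_ne_top _ _)
  obtain ⟨n, hn⟩ := exists_nat_gt ((C + Real.log (γ.real univ)) / μ.real A)
  have h1 := hC (A.indicator fun _ => (n : ℝ)) (measurable_const.indicator hA)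
    ⟨n, fun x => by
      by_cases hx : x ∈ A
      · simp [indicator_of_mem hx]
      · simp [indicator_of_notMem hx]⟩
  have h2 : ∫ x, A.indicator (fun _ => (n : ℝ)) x ∂μ = n * μ.real A := by
    rw [integral_indicator hA]
    simp [mul_comm]
  have h3 : ∫ x, Real.exp (A.indicator (fun _ => (n : ℝ)) x) ∂γ = γ.real univ := by
    have hae : (fun x => Real.exp (A.indicator (fun _ => (n : ℝ)) x)) =ᵐ[γ] fun _ => (1 : ℝ) := by
      have hA0 : ∀ᵐ x ∂γ, x ∉ A := measure_eq_zero_iff_ae_notMem.1 h0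
      filter_upwards [hA0] with x hx
      simp [indicator_of_notMem hx]
    rw [integral_congr_ae hae]
    simp
  rw [h2, h3] at h1
  rw [div_lt_iff₀ hpos] at hn
  linarith

/-- finite entropy -/
theorem DV_ent (μ γ : Measure ℂ) [IsProbabilityMeasure μ] [IsFiniteMeasure γ] (C : ℝ)
    (hC : ∀ g : ℂ → ℝ, Measurable g → (∃ M, ∀ x, |g x| ≤ M) →
      ∫ x, g x ∂μ - Real.log (∫ x, Real.exp (g x) ∂γ) ≤ C)
    (h : ℂ → ℝ) (hm : Measurable h) (h0 : ∀ x, 0 ≤ h x) (hi : Integrable h γ)
    (h1 : ∫ x, h x ∂γ = 1)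
    (hμ : ∀ g : ℂ → ℝ, Measurable g → ∫ x, g x ∂μ = ∫ x, g x * h x ∂γ) :
    Integrable (fun x => h x * Real.log (h x)) γ ∧ ∫ x, h x * Real.log (h x) ∂γ ≤ C := by
  set G : ℕ → ℂ → ℝ := fun n x =>
    Real.log (min (max (h x) (Real.exp (-(n : ℝ)))) (Real.exp n)) with hG
  have hee : ∀ n : ℕ, Real.exp (-(n : ℝ)) ≤ Real.exp n := fun n =>
    Real.exp_le_exp.2 (by have := n.cast_nonneg (α := ℝ); linarith)
  have hlo : ∀ (n : ℕ) (x : ℂ), Real.exp (-(n : ℝ)) ≤
      min (max (h x) (Real.exp (-(n : ℝ)))) (Real.exp n) :=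
    fun n x => le_min (le_max_right _ _) (hee n)
  have hpp : ∀ (n : ℕ) (x : ℂ),
      0 < min (max (h x) (Real.exp (-(n : ℝ)))) (Real.exp n) := fun n x =>
    lt_of_lt_of_le (Real.exp_pos _) (hlo n x)
  have hGm : ∀ n, Measurable (G n) := fun n => by
    refine Real.measurable_log.comp ?_
    exact (hm.max measurable_const).min measurable_const
  have hGb : ∀ (n : ℕ) x, |G n x| ≤ n := by
    intro n x
    rw [abs_le]
    constructor
    · rw [Real.le_log_iff_exp_le (hpp n x)]
      exact hlo n x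
    · rw [Real.log_le_iff_le_exp (hpp n x)]
      exact min_le_right _ _
  have hGe : ∀ (n : ℕ) (x : ℂ), Real.exp (G n x) ≤ h x + Real.exp (-(n : ℝ)) := by
    intro n x
    rw [hG]
    simp only
    rw [Real.exp_log (hpp n x)]
    refine le_trans (min_le_left _ _) (max_le ?_ ?_)
    · linarith [Real.exp_pos (-(n : ℝ))]
    · linarith [h0 x]
  have hlog : ∀ t : ℝ, 0 < t → t - 1 ≤ t * Real.log t := by
    intro t ht
    have h2 := Real.log_le_sub_one_of_pos (inv_pos.2 ht)
    rw [Real.log_inv] at h2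
    have h3 : t * t⁻¹ = 1 := mul_inv_cancel₀ ht.ne'
    nlinarith
  have hG1 : ∀ (n : ℕ) (x : ℂ), -1 ≤ G n x * h x := by
    intro n x
    rcases (h0 x).eq_or_lt with hx | hx
    · rw [← hx]; simp
    rcases le_or_gt 1 (h x) with hx1 | hx1
    · have : 0 ≤ G n x := by
        refine Real.log_nonneg (le_min (le_trans hx1 (le_max_left _ _)) ?_)
        exact Real.one_le_exp (Nat.cast_nonneg n)
      have := mul_nonneg this hx.le
      linarith
    · have : Real.log (h x) ≤ G n x := by
        refine Real.log_le_log hx (le_min (le_max_left _ _) ?_)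
        exact le_trans hx1.le (Real.one_le_exp (Nat.cast_nonneg n))
      have h2 := mul_le_mul_of_nonneg_right this hx.le
      have h3 := hlog _ hx
      linarith [mul_comm (h x) (Real.log (h x))]
  have hGt : ∀ x, Tendsto (fun n => G n x * h x) atTop (𝓝 (h x * Real.log (h x))) := by
    intro x
    rcases (h0 x).eq_or_lt with hx | hx
    · rw [← hx]; simp
    · have ht : ∀ᶠ n : ℕ in atTop, |Real.log (h x)| ≤ n := by
        obtain ⟨n₀, hn₀⟩ := exists_nat_ge |Real.log (h x)|
        filter_upwards [eventually_ge_atTop n₀] with n hn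
        exact le_trans hn₀ (by exact_mod_cast hn)
      refine tendsto_const_nhds.congr' ?_
      filter_upwards [ht] with n hn
      have h2 := abs_le.1 hn
      have h3 : Real.exp (-(n : ℝ)) ≤ h x := by
        rw [← Real.le_log_iff_exp_le hx]; exact h2.1
      have h4 : h x ≤ Real.exp n := by
        rw [← Real.log_le_iff_le_exp hx]; exact h2.2
      rw [hG]
      simp only
      rw [max_eq_left h3, min_eq_left h4, mul_comm]
  have hGi : ∀ n, Integrable (fun x => G n x * h x) γ := fun n => by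
    have := hi.bdd_mul (hGm n).aestronglyMeasurable (Eventually.of_forall fun x => by
      rw [Real.norm_eq_abs]; exact hGb n x)
    exact this
  have hub : 0 < γ.real univ := by
    rw [measureReal_def]
    refine ENNReal.toReal_pos (fun hz => ?_) (measure_ne_top _ _)
    rw [Measure.measure_univ_eq_zero.1 hz] at h1
    simp at h1
  have hIn : ∀ n : ℕ, ∫ x, G n x * h x ∂γ ≤
      C + Real.log (1 + Real.exp (-(n : ℝ)) * γ.real univ) := by
    intro n
    have h2 := hC (G n) (hGm n) ⟨n, hGb n⟩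
    rw [hμ _ (hGm n)] at h2
    have hexpint : Integrable (fun x => Real.exp (G n x)) γ :=
      Integrable.of_bound (Real.measurable_exp.comp (hGm n)).aestronglyMeasurable (Real.exp n)
        (Eventually.of_forall fun x => by
          rw [Real.norm_eq_abs, abs_of_pos (Real.exp_pos _)]
          exact Real.exp_le_exp.2 (le_trans (le_abs_self _) (hGb n x)))
    have h3 : ∫ x, Real.exp (G n x) ∂γ ≤ 1 + Real.exp (-(n : ℝ)) * γ.real univ := by
      calc ∫ x, Real.exp (G n x) ∂γ ≤ ∫ x, (h x + Real.exp (-(n : ℝ))) ∂γ :=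
            integral_mono hexpint (hi.add (integrable_const _)) fun x => hGe n x
        _ = 1 + Real.exp (-(n : ℝ)) * γ.real univ := by
            rw [integral_add hi (integrable_const _), h1]
            simp [mul_comm]
    have hpos : 0 < ∫ x, Real.exp (G n x) ∂γ := by
      have : NeZero γ := ⟨fun hz => by rw [hz] at hub; simp at hub⟩
      exact integral_exp_pos hexpint
    have h4 := Real.log_le_log hpos h3
    linarith
  have hC0 : 1 ≤ C + γ.real univ := by
    have h2 := hC (fun _ => 0) measurable_const ⟨0, fun x => by simp⟩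
    simp only [integral_zero, Real.exp_zero, integral_const, smul_eq_mul, mul_one, zero_sub] at h2
    have h3 := Real.log_le_sub_one_of_pos hub
    linarith
  have hlim : Tendsto (fun n : ℕ => ENNReal.ofReal
      (C + Real.log (1 + Real.exp (-(n : ℝ)) * γ.real univ) + γ.real univ)) atTop
      (𝓝 (ENNReal.ofReal (C + γ.real univ))) := by
    refine (ENNReal.continuous_ofReal.tendsto _).comp ?_
    have h2 : Tendsto (fun n : ℕ => Real.exp (-(n : ℝ))) atTop (𝓝 0) :=
      Real.tendsto_exp_neg_atTop_nhds_zero.comp tendsto_natCast_atTop_atTop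
    have h3 : Tendsto (fun n : ℕ => 1 + Real.exp (-(n : ℝ)) * γ.real univ) atTop (𝓝 1) := by
      simpa using (h2.mul_const (γ.real univ)).const_add 1
    have h4 : Tendsto (fun n : ℕ => Real.log (1 + Real.exp (-(n : ℝ)) * γ.real univ)) atTop
        (𝓝 (Real.log 1)) := (Real.continuousAt_log one_ne_zero).tendsto.comp h3
    rw [Real.log_one] at h4
    simpa using (h4.const_add C).add_const (γ.real univ)
  have hfat : ∫⁻ x, ENNReal.ofReal (h x * Real.log (h x) + 1) ∂γ ≤
      ENNReal.ofReal (C + γ.real univ) := by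
    calc ∫⁻ x, ENNReal.ofReal (h x * Real.log (h x) + 1) ∂γ
        = ∫⁻ x, liminf (fun n => ENNReal.ofReal (G n x * h x + 1)) atTop ∂γ := by
          refine lintegral_congr fun x => ?_
          refine (Tendsto.liminf_eq ?_).symm
          exact (ENNReal.continuous_ofReal.tendsto _).comp ((hGt x).add_const 1)
      _ ≤ liminf (fun n => ∫⁻ x, ENNReal.ofReal (G n x * h x + 1) ∂γ) atTop :=
          lintegral_liminf_le fun n =>
            ((((hGm n).mul hm).add_const 1)).ennreal_ofReal
      _ ≤ liminf (fun n : ℕ => ENNReal.ofReal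
            (C + Real.log (1 + Real.exp (-(n : ℝ)) * γ.real univ) + γ.real univ)) atTop := by
          refine liminf_le_liminf (Eventually.of_forall fun n => ?_)
          have hGi1 : Integrable (fun x => G n x * h x + 1) γ := (hGi n).add (integrable_const 1)
          rw [← ofReal_integral_eq_lintegral_ofReal hGi1
            (Eventually.of_forall fun x => by
              have := hG1 n x
              simp only [Pi.zero_apply]
              linarith)]
          refine ENNReal.ofReal_le_ofReal ?_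
          rw [integral_add (hGi n) (integrable_const 1)]
          simp only [integral_const, smul_eq_mul, mul_one]
          linarith [hIn n]
      _ = ENNReal.ofReal (C + γ.real univ) := hlim.liminf_eq
  have hnn : ∀ x, 0 ≤ h x * Real.log (h x) + 1 := by
    intro x
    rcases (h0 x).eq_or_lt with hx | hx
    · rw [← hx]; simp
    · linarith [hlog _ hx]
  have hmm : Measurable fun x => h x * Real.log (h x) + 1 :=
    (hm.mul (Real.measurable_log.comp hm)).add_const 1
  have hint : Integrable (fun x => h x * Real.log (h x) + 1) γ := by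
    refine ⟨hmm.aestronglyMeasurable, ?_⟩
    rw [hasFiniteIntegral_iff_ofReal (Eventually.of_forall hnn)]
    exact lt_of_le_of_lt hfat ENNReal.ofReal_lt_top
  have hint2 : Integrable (fun x => h x * Real.log (h x)) γ := by
    have := hint.sub (integrable_const (1 : ℝ))
    refine this.congr (Eventually.of_forall fun x => ?_)
    simp
  refine ⟨hint2, ?_⟩
  rw [← ofReal_integral_eq_lintegral_ofReal hint (Eventually.of_forall hnn),
    ENNReal.ofReal_le_ofReal_iff (by linarith), integral_add hint2 (integrable_const 1)] at hfat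
  simp only [integral_const, smul_eq_mul, mul_one] at hfat
  linarith

theorem DV_wint {k : ℂ → ℝ} (hk : Measurable k) (hk0 : ∀ x, 0 ≤ k x) (F : ℂ → ℝ) :
    ∫ x, F x ∂(wd k) = ∫ x, F x * k x := by
  have h1 := integral_withDensity_eq_integral_smul (μ := volume) hk.real_toNNReal F
  have h2 : wd k = volume.withDensity fun x => ((k x).toNNReal : ℝ≥0∞) := rfl
  rw [h2, h1]
  refine integral_congr_ae (Eventually.of_forall fun x => ?_)
  simp only [NNReal.smul_def, Real.coe_toNNReal _ (hk0 x), smul_eq_mul, mul_comm]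

theorem DV_wintegrable {k : ℂ → ℝ} (hk : Measurable k) (hk0 : ∀ x, 0 ≤ k x) (F : ℂ → ℝ) :
    Integrable F (wd k) ↔ Integrable fun x => F x * k x := by
  have h1 := integrable_withDensity_iff_integrable_smul (μ := volume) hk.real_toNNReal (g := F)
  have h2 : wd k = volume.withDensity fun x => ((k x).toNNReal : ℝ≥0∞) := rfl
  rw [h2, h1]
  refine integrable_congr (Eventually.of_forall fun x => ?_)
  simp only [NNReal.smul_def, Real.coe_toNNReal _ (hk0 x), smul_eq_mul, mul_comm]

theorem DV_gauss {α : ℝ} (hα : 0 < α) : Integrable fun x : ℂ => Real.exp (-(α * ‖x‖ ^ 2)) := by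
  by_contra hne
  have h1 := GaussianFourier.integral_rexp_neg_mul_sq_norm (V := ℂ) hα
  have h2 : (fun v : ℂ => Real.exp (-α * ‖v‖ ^ 2)) = fun x : ℂ => Real.exp (-(α * ‖x‖ ^ 2)) := by
    funext v; ring_nf
  rw [h2, integral_undef hne] at h1
  have h3 : 0 < (Real.pi / α) ^ ((Module.finrank ℝ ℂ : ℝ) / 2) :=
    Real.rpow_pos_of_pos (div_pos Real.pi_pos hα) _
  linarith

theorem DV_finite {k : ℂ → ℝ} (hki : Integrable k) : IsFiniteMeasure (wd k) :=
  isFiniteMeasure_withDensity_ofReal hki.2

/-- the main step -/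
theorem DV_dens (μ : Measure ℂ) [IsProbabilityMeasure μ] (hI : ∫⁻ x, ‖x‖ₑ ^ 2 ∂μ ≤ 1)
    {ρ : ℂ → ℝ} (hρ : Measurable ρ) (hρ0 : ∀ x, 0 ≤ ρ x) (hμ : μ = wd ρ) {α C : ℝ} (hα : 0 < α)
    (hC : ∀ g : ℂ → ℝ, Measurable g → (∃ M, ∀ x, |g x| ≤ M) →
      ∫ x, g x ∂μ - Real.log (∫ x, Real.exp (g x) ∂(wd fun x => Real.exp (-(α * ‖x‖ ^ 2)))) ≤ C) :
    Dens ρ ∧ -Sent ρ ≤ C := by
  set k : ℂ → ℝ := fun x => Real.exp (-(α * ‖x‖ ^ 2)) with hk
  have hkm : Measurable k := by fun_prop
  have hk0 : ∀ x, 0 ≤ k x := fun x => (Real.exp_pos _).le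
  have hki : Integrable k := DV_gauss hα
  have : IsFiniteMeasure (wd k) := DV_finite hki
  -- the density is integrable
  have hpi : Integrable ρ := by
    have h1 : Integrable (fun _ : ℂ => (1 : ℝ)) (wd ρ) := by rw [← hμ]; exact integrable_const 1
    rw [DV_wintegrable hρ hρ0] at h1
    simpa using h1
  have hp1 : ∫ x, ρ x = 1 := by
    have h1 := DV_wint hρ hρ0 (fun _ => 1)
    rw [← hμ] at h1
    simpa using h1.symm
  have hmom : Integrable fun x => ‖x‖ ^ 2 * ρ x := by
    rw [← DV_wintegrable hρ hρ0 (fun x => ‖x‖ ^ 2), ← hμ]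
    refine ⟨by fun_prop, ?_⟩
    rw [hasFiniteIntegral_iff_enorm]
    refine lt_of_le_of_lt ?_ (lt_of_le_of_lt hI ENNReal.one_lt_top)
    refine lintegral_mono fun x => ?_
    simp
  set h : ℂ → ℝ := fun x => ρ x * Real.exp (α * ‖x‖ ^ 2) with hh
  have hm : Measurable h := by
    refine hρ.mul ?_
    fun_prop
  have h0 : ∀ x, 0 ≤ h x := fun x => mul_nonneg (hρ0 x) (Real.exp_pos _).le
  have hhk : ∀ x, h x * k x = ρ x := fun x => by
    rw [hh, hk]
    simp only
    rw [mul_assoc, ← Real.exp_add]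
    simp
  have hi : Integrable h (wd k) := by
    rw [DV_wintegrable hkm hk0]
    exact hpi.congr (Eventually.of_forall fun x => (hhk x).symm)
  have h1 : ∫ x, h x ∂(wd k) = 1 := by
    rw [DV_wint hkm hk0, ← hp1]
    exact integral_congr_ae (Eventually.of_forall fun x => hhk x)
  have hμg : ∀ g : ℂ → ℝ, Measurable g → ∫ x, g x ∂μ = ∫ x, g x * h x ∂(wd k) := by
    intro g _
    rw [DV_wint hkm hk0, hμ, DV_wint hρ hρ0]
    refine integral_congr_ae (Eventually.of_forall fun x => ?_)
    simp only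
    rw [mul_assoc, hhk]
  obtain ⟨hE, hEC⟩ := DV_ent μ (wd k) C hC h hm h0 hi h1 hμg
  rw [DV_wintegrable hkm hk0] at hE
  rw [DV_wint hkm hk0] at hEC
  have hkey : ∀ x, h x * Real.log (h x) * k x =
      ρ x * Real.log (ρ x) + α * (‖x‖ ^ 2 * ρ x) := by
    intro x
    rcases (hρ0 x).eq_or_lt with hx | hx
    · rw [hh]
      simp [← hx]
    · have h2 : Real.log (h x) = Real.log (ρ x) + α * ‖x‖ ^ 2 := by
        rw [hh]
        simp only
        rw [Real.log_mul hx.ne' (Real.exp_pos _).ne', Real.log_exp]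
      calc h x * Real.log (h x) * k x = (h x * k x) * Real.log (h x) := by ring
        _ = _ := by rw [hhk, h2]; ring
  have hent : Integrable fun x => ρ x * Real.log (ρ x) := by
    have h2 := hE.sub (hmom.const_mul α)
    refine h2.congr (Eventually.of_forall fun x => ?_)
    simp only [Pi.sub_apply]
    rw [hkey]
    ring
  refine ⟨⟨hρ, hρ0, hpi, hp1, hent, hmom⟩, ?_⟩
  have h3 : ∫ x, h x * Real.log (h x) * k x =
      (∫ x, ρ x * Real.log (ρ x)) + α * ∫ x, ‖x‖ ^ 2 * ρ x := by
    rw [← integral_const_mul, ← integral_add hent (hmom.const_mul α)]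
    exact integral_congr_ae (Eventually.of_forall fun x => hkey x)
  have h4 : 0 ≤ ∫ x, ‖x‖ ^ 2 * ρ x :=
    integral_nonneg fun x => mul_nonneg (by positivity) (hρ0 x)
  have h5 := mul_nonneg hα.le h4
  rw [Sent]
  linarith

theorem DV_main (μ : Measure ℂ) [IsProbabilityMeasure μ] (hI : ∫⁻ x, ‖x‖ₑ ^ 2 ∂μ ≤ 1) (σ : ℝ)
    (h : (∃ ρ, Dens ρ ∧ μ = wd ρ ∧ Sent ρ < σ) ∨ ¬ ∃ ρ, Dens ρ ∧ μ = wd ρ) :
    ∃ α > 0, ∃ f : ℂ → ℝ, Continuous f ∧ HasCompactSupport f ∧
      Real.log (∫ y, wt α f y) - ∫ x, f x ∂μ + α < σ := by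
  by_contra hcon
  push Not at hcon
  -- all bounded measurable functions
  have hall : ∀ α : ℝ, 0 < α → ∀ g : ℂ → ℝ, Measurable g → (∃ M, ∀ x, |g x| ≤ M) →
      ∫ x, g x ∂μ - Real.log (∫ x, Real.exp (g x) ∂(wd fun x => Real.exp (-(α * ‖x‖ ^ 2)))) ≤
        α - σ := by
    intro α hα g hg hgb
    obtain ⟨M, hM⟩ := hgb
    have hki : Integrable fun x : ℂ => Real.exp (-(α * ‖x‖ ^ 2)) := DV_gauss hα
    have hkm : Measurable fun x : ℂ => Real.exp (-(α * ‖x‖ ^ 2)) := by fun_prop
    have : IsFiniteMeasure (wd fun x => Real.exp (-(α * ‖x‖ ^ 2))) := DV_finite hki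
    refine DV_bdd μ (wd fun x => Real.exp (-(α * ‖x‖ ^ 2))) ?_ _ (fun f hf hfs => ?_) g hg M hM
    · intro hz
      have h1 := DV_wint hkm (fun x => (Real.exp_pos _).le) (fun _ => 1)
      rw [hz] at h1
      simp only [integral_zero_measure, one_mul] at h1
      have h2 : 0 < ∫ x : ℂ, Real.exp (-(α * ‖x‖ ^ 2)) := integral_exp_pos hki
      linarith
    · have h1 := hcon α hα f hf hfs
      have h2 : ∫ x, Real.exp (f x) ∂(wd fun x => Real.exp (-(α * ‖x‖ ^ 2))) =
          ∫ y, wt α f y := by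
        rw [DV_wint hkm (fun x => (Real.exp_pos _).le)]
        refine integral_congr_ae (Eventually.of_forall fun x => ?_)
        simp only [wt]
        rw [← Real.exp_add]
        ring_nf
      rw [h2]
      linarith
  rcases h with ⟨ρ, hρ, hμ, hS⟩ | hno
  · have h1 := (DV_dens μ hI hρ.meas hρ.nonneg hμ (α := (σ - Sent ρ) / 2) (by linarith)
      (hall _ (by linarith))).2
    linarith
  · apply hno
    have hac : μ ≪ volume := by
      have hki : Integrable fun x : ℂ => Real.exp (-((1 : ℝ) * ‖x‖ ^ 2)) := DV_gauss one_pos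
      have : IsFiniteMeasure (wd fun x => Real.exp (-((1 : ℝ) * ‖x‖ ^ 2))) := DV_finite hki
      have h1 := DV_ac μ (wd fun x => Real.exp (-((1 : ℝ) * ‖x‖ ^ 2))) _ (hall 1 one_pos)
      exact h1.trans (withDensity_absolutelyContinuous _ _)
    have hμ : μ = wd fun x => (μ.rnDeriv volume x).toReal := by
      have h1 : wd (fun x => (μ.rnDeriv volume x).toReal) =
          volume.withDensity (μ.rnDeriv volume) := by
        refine withDensity_congr_ae ?_
        filter_upwards [μ.rnDeriv_lt_top volume] with x hx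
        exact ENNReal.ofReal_toReal hx.ne
      rw [h1, Measure.withDensity_rnDeriv_eq _ _ hac]
    exact ⟨_, (DV_dens μ hI (μ.measurable_rnDeriv volume).ennreal_toReal
      (fun x => ENNReal.toReal_nonneg) hμ one_pos (hall 1 one_pos)).1, hμ⟩

end

end Pool.Agent.Lib_helper68.MC
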